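import Mathlib

/-!
# Extremal points of a finite dimensional family of functions: countable implies finite
-/

set_option autoImplicit false

open Set Filter Topology

namespace Run7.h115.QG

theorem core {X W ι : Type*} [NormedAddCommGroup W] [NormedSpace ℝ W] [CompleteSpace W] [Finite ι]
    (F : X → W →L[ℝ] ℝ) (I : ι → Set X) (A : Set X) (hA : A.Finite)
    (hcov : ∀ P, P ∈ A ∨ ∃ i, P ∈ I i)
    (hmax : ∀ w, ∃ P, ∀ Q, F Q w ≤ F P w)
    (hunc : ∀ i, ¬ (I i).Countable)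
    (h1 : ∀ i w c, {P | P ∈ I i ∧ F P w = c}.Infinite → ∀ P ∈ I i, F P w = c)
    (h2 : ∀ i, {P | P ∈ I i ∧ (interior {w | ∀ Q, F Q w ≤ F P w}).Nonempty}.Infinite →
      ∀ w, ∀ P ∈ I i, ∀ Q ∈ I i, F P w = F Q w)
    (hM : {P | ∃ w, w ≠ 0 ∧ ∀ Q, F Q w ≤ F P w}.Countable) :
    {P | ∃ w, w ≠ 0 ∧ ∀ Q, F Q w ≤ F P w}.Finite := by
  classical
  obtain ⟨M, hMd⟩ : ∃ M : Set X, M = {P | ∃ w, w ≠ 0 ∧ ∀ Q, F Q w ≤ F P w} := ⟨_, rfl⟩
  rw [← hMd] at hM ⊢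
  obtain ⟨Cn, hCn⟩ : ∃ Cn : X → Set W, Cn = fun P => {w | ∀ Q, F Q w ≤ F P w} := ⟨_, rfl⟩
  have mC : ∀ P w, w ∈ Cn P ↔ ∀ Q, F Q w ≤ F P w := fun P w => by rw [hCn]; rfl
  have mM : ∀ P, P ∈ M ↔ ∃ w, w ≠ 0 ∧ w ∈ Cn P := fun P => by
    rw [hMd, hCn]; rfl
  have hcl : ∀ P, IsClosed (Cn P) := by
    intro P
    rw [hCn]
    simp only [Set.ofPred_forall]
    exact isClosed_iInter fun Q => isClosed_le (F Q).continuous (F P).continuous
  rcases M.eq_empty_or_nonempty with hem | ⟨P0, hP0⟩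
  · rw [hem]; exact Set.finite_empty
  have hU : ⋃ P : M, Cn P = univ := by
    refine Set.eq_univ_of_forall fun w => Set.mem_iUnion.2 ?_
    by_cases hw : w = 0
    · refine ⟨⟨P0, hP0⟩, (mC _ _).2 fun Q => ?_⟩
      rw [hw, map_zero, map_zero]
    · obtain ⟨P, hP⟩ := hmax w
      exact ⟨⟨P, (mM P).2 ⟨w, hw, (mC _ _).2 hP⟩⟩, (mC _ _).2 hP⟩
  haveI : Countable M := hM.to_subtype
  have hd := dense_iUnion_interior_of_closed (f := fun P : M => Cn P) (fun P => hcl P) hU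
  -- the points whose cones have inner points
  obtain ⟨A0, hA0⟩ : ∃ A0 : Set X, A0 = {P | P ∈ M ∧ (interior (Cn P)).Nonempty} := ⟨_, rfl⟩
  have hA0f : A0.Finite := by
    have hsub : A0 ⊆ A ∪ ⋃ i, {P | P ∈ I i ∧ P ∈ A0} := by
      intro P hP
      rcases hcov P with h | ⟨i, h⟩
      · exact Or.inl h
      · exact Or.inr (Set.mem_iUnion.2 ⟨i, h, hP⟩)
    refine (hA.union (Set.finite_iUnion fun i => ?_)).subset hsub
    by_contra hinf
    have hinf' : {P | P ∈ I i ∧ (interior {w | ∀ Q, F Q w ≤ F P w}).Nonempty}.Infinite := by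
      refine Set.Infinite.mono ?_ hinf
      rintro P ⟨hP1, hP2⟩
      rw [hA0] at hP2
      refine ⟨hP1, ?_⟩
      have := hP2.2
      rw [hCn] at this
      exact this
    have hc := h2 i hinf'
    obtain ⟨P, hP1, hP2⟩ := (show ({P | P ∈ I i ∧ P ∈ A0} : Set X).Infinite from hinf).nonempty
    rw [hA0] at hP2
    obtain ⟨w, hw, hwP⟩ := (mM P).1 hP2.1
    refine hunc i (hM.mono fun Q hQ => (mM Q).2 ⟨w, hw, (mC _ _).2 fun R => ?_⟩)
    rw [← hc w P hP1 Q hQ]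
    exact (mC _ _).1 hwP R
  have hA0U : ⋃ P ∈ A0, Cn P = univ := by
    have hc : IsClosed (⋃ P ∈ A0, Cn P) := hA0f.isClosed_biUnion fun P _ => hcl P
    have hde : Dense (⋃ P ∈ A0, Cn P) := by
      refine hd.mono ?_
      intro w hw
      obtain ⟨P, hP⟩ := Set.mem_iUnion.1 hw
      refine Set.mem_iUnion₂.2 ⟨P, ?_, interior_subset hP⟩
      rw [hA0]
      exact ⟨P.2, w, hP⟩
    rw [← hc.closure_eq]
    exact hde.closure_eq
  have hmax' : ∀ w, ∃ P ∈ A0, w ∈ Cn P := by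
    intro w
    have : w ∈ ⋃ P ∈ A0, Cn P := by rw [hA0U]; trivial
    obtain ⟨P, hP, h⟩ := Set.mem_iUnion₂.1 this
    exact ⟨P, hP, h⟩
  -- the extremal points of one function
  have hone : ∀ w, w ≠ 0 → {y | w ∈ Cn y}.Finite := by
    intro w hw
    have hsub : {y | w ∈ Cn y} ⊆ A ∪ ⋃ i, {P | P ∈ I i ∧ w ∈ Cn P} := by
      intro P hP
      rcases hcov P with h | ⟨i, h⟩
      · exact Or.inl h
      · exact Or.inr (Set.mem_iUnion.2 ⟨i, h, hP⟩)
    refine (hA.union (Set.finite_iUnion fun i => ?_)).subset hsub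
    by_contra hinf
    obtain ⟨P1, -, hP1⟩ := hmax' w
    have hc := h1 i w (F P1 w) (by
      refine Set.Infinite.mono ?_ hinf
      rintro P ⟨hP2, hP3⟩
      exact ⟨hP2, le_antisymm ((mC _ _).1 hP1 P) ((mC _ _).1 hP3 P1)⟩)
    refine hunc i (hM.mono fun Q hQ => (mM Q).2 ⟨w, hw, (mC _ _).2 fun R => ?_⟩)
    rw [hc Q hQ]
    exact (mC _ _).1 hP1 R
  -- the choice of a function for each extremal point
  have hch : ∀ y : M, ∃ w, w ≠ 0 ∧ w ∈ Cn y := fun y => (mM y).1 y.2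
  choose wy hwy using hch
  obtain ⟨J, hJ⟩ : ∃ J : W → Set X, J = fun w => {P | P ∈ A0 ∧ w ∈ Cn P} := ⟨_, rfl⟩
  have mJ : ∀ P w, P ∈ J w ↔ P ∈ A0 ∧ w ∈ Cn P := fun P w => by rw [hJ]; rfl
  have hMS : ∀ S ∈ {S : Set X | S ⊆ A0}, {y : X | ∃ h : y ∈ M, J (wy ⟨y, h⟩) = S}.Finite := by
    intro S _
    rcases Set.eq_empty_or_nonempty {y : X | ∃ h : y ∈ M, J (wy ⟨y, h⟩) = S} with h0 | ⟨y0, hy0, hS⟩
    · rw [h0]; exact Set.finite_empty
    refine (hone (wy ⟨y0, hy0⟩) (hwy ⟨y0, hy0⟩).1).subset ?_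
    rintro y ⟨hy, hS'⟩
    obtain ⟨w0, hw0⟩ : ∃ w0, w0 = wy ⟨y0, hy0⟩ := ⟨_, rfl⟩
    obtain ⟨u, hu⟩ : ∃ u, u = wy ⟨y, hy⟩ := ⟨_, rfl⟩
    have huy : u ∈ Cn y := by rw [hu]; exact (hwy ⟨y, hy⟩).2
    rw [← hw0] at hS
    rw [← hu] at hS'
    show wy ⟨y0, hy0⟩ ∈ Cn y
    rw [← hw0]
    obtain ⟨Q0, hQ0, hQ0w⟩ := hmax' w0
    have hQS : Q0 ∈ S := by rw [← hS]; exact (mJ _ _).2 ⟨hQ0, hQ0w⟩
    have hQu : u ∈ Cn Q0 := by rw [← hS'] at hQS; exact ((mJ _ _).1 hQS).2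
    have hev : ∀ᶠ ε : ℝ in 𝓝[>] 0, ∀ P ∈ A0, u ∉ Cn P →
        ε * (F Q0 w0 - F P w0) < F Q0 u - F P u := by
      rw [Filter.eventually_all_finite hA0f]
      intro P hP
      by_cases hPu : u ∈ Cn P
      · exact Filter.Eventually.of_forall fun ε h => absurd hPu h
      · have hlt : 0 < F Q0 u - F P u := by
          rw [mC] at hPu
          push Not at hPu
          obtain ⟨R, hR⟩ := hPu
          linarith [(mC _ _).1 hQu R]
        have ht : Tendsto (fun ε : ℝ => ε * (F Q0 w0 - F P w0)) (𝓝[>] 0) (𝓝 0) := by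
          have : Tendsto (fun ε : ℝ => ε * (F Q0 w0 - F P w0)) (𝓝 0)
              (𝓝 (0 * (F Q0 w0 - F P w0))) := tendsto_id.mul_const _
          rw [zero_mul] at this
          exact this.mono_left nhdsWithin_le_nhds
        exact (ht.eventually (gt_mem_nhds hlt)).mono fun ε h _ => h
    obtain ⟨ε, hε, hε0⟩ := (hev.and self_mem_nhdsWithin).exists
    have hε0 : 0 < ε := hε0
    obtain ⟨P, hP, hPv⟩ := hmax' (u - ε • w0)
    have hval : ∀ R, F R (u - ε • w0) = F R u - ε * F R w0 := by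
      intro R
      rw [map_sub, map_smul, smul_eq_mul]
    have hQv : F P (u - ε • w0) ≤ F Q0 (u - ε • w0) := by
      rw [hval, hval]
      by_cases hPu : u ∈ Cn P
      · have hPS : P ∈ S := by rw [← hS']; exact (mJ _ _).2 ⟨hP, hPu⟩
        have hPw : w0 ∈ Cn P := by rw [← hS] at hPS; exact ((mJ _ _).1 hPS).2
        have e1 : F P u = F Q0 u := le_antisymm ((mC _ _).1 hQu P) ((mC _ _).1 hPu Q0)
        have e2 : F P w0 = F Q0 w0 := le_antisymm ((mC _ _).1 hQ0w P) ((mC _ _).1 hPw Q0)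
        rw [e1, e2]
      · have := hε P hP hPu
        nlinarith
    have hyv := ((mC _ _).1 hPv y).trans hQv
    rw [hval, hval] at hyv
    have e3 : F y u = F Q0 u := le_antisymm ((mC _ _).1 hQu y) ((mC _ _).1 huy Q0)
    have h5 : F Q0 w0 ≤ F y w0 := by
      rw [e3] at hyv
      nlinarith
    exact (mC _ _).2 fun R => ((mC _ _).1 hQ0w R).trans h5
  refine ((hA0f.finite_subsets.biUnion hMS)).subset ?_
  intro y hy
  refine Set.mem_iUnion₂.2 ⟨J (wy ⟨y, hy⟩), ?_, hy, rfl⟩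
  intro P hP
  exact ((mJ _ _).1 hP).1

end Run7.h115.QG
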