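import Pool.Agent.R228.QG.Basic
import Pool.Agent.Run7.h115.QG.Core

/-!
# The hot-spot set of a metric graph with delta conditions is finite or uncountable
-/

set_option autoImplicit false
set_option linter.unusedSectionVars false

open Set Filter Topology
open Pool.Agent.R228.QG

namespace Run7.h115.QG

/-- fundamental solutions of `-f'' = μ f` -/
structure Fund (μ : ℝ) (C S : ℝ → ℝ) : Prop where
  dC : ∀ x, HasDerivAt C (-(μ * S x)) x
  dS : ∀ x, HasDerivAt S (C x) x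
  C0 : C 0 = 1
  S0 : S 0 = 0
  aC : AnalyticOnNhd ℝ C univ
  aS : AnalyticOnNhd ℝ S univ

theorem exists_fund (μ : ℝ) : ∃ C S : ℝ → ℝ, Fund μ C S := by
  have hlin : ∀ k x : ℝ, HasDerivAt (fun x : ℝ => k * x) k x := fun k x => by
    simpa using (hasDerivAt_id x).const_mul k
  have alin : ∀ k x : ℝ, AnalyticAt ℝ (fun x : ℝ => k * x) x := fun k x =>
    analyticAt_const.mul analyticAt_id
  rcases lt_trichotomy μ 0 with h | h | h
  · obtain ⟨k, hk, hk2⟩ : ∃ k : ℝ, 0 < k ∧ μ = -(k ^ 2) :=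
      ⟨Real.sqrt (-μ), Real.sqrt_pos.2 (by linarith), by rw [Real.sq_sqrt (by linarith)]; ring⟩
    refine ⟨fun x => Real.cosh (k * x), fun x => Real.sinh (k * x) / k, fun x => ?_, fun x => ?_,
      by simp, by simp, fun x _ => ?_, fun x _ => ?_⟩
    · refine ((Real.hasDerivAt_cosh (k * x)).comp x (hlin k x)).congr_deriv ?_
      rw [hk2]; field_simp
    · refine (((Real.hasDerivAt_sinh (k * x)).comp x (hlin k x)).div_const k).congr_deriv ?_
      field_simp
    · exact Real.analyticAt_cosh.comp (alin k x)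
    · exact (Real.analyticAt_sinh.comp (alin k x)).div analyticAt_const hk.ne'
  · refine ⟨fun _ => 1, fun x => x, fun x => ?_, fun x => hasDerivAt_id x, rfl, rfl,
      fun x _ => analyticAt_const, fun x _ => analyticAt_id⟩
    rw [h, zero_mul, neg_zero]
    exact hasDerivAt_const x 1
  · obtain ⟨k, hk, hk2⟩ : ∃ k : ℝ, 0 < k ∧ μ = k ^ 2 :=
      ⟨Real.sqrt μ, Real.sqrt_pos.2 h, by rw [Real.sq_sqrt h.le]⟩
    refine ⟨fun x => Real.cos (k * x), fun x => Real.sin (k * x) / k, fun x => ?_, fun x => ?_,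
      by simp, by simp, fun x _ => ?_, fun x _ => ?_⟩
    · refine ((Real.hasDerivAt_cos (k * x)).comp x (hlin k x)).congr_deriv ?_
      rw [hk2]; field_simp
    · refine (((Real.hasDerivAt_sin (k * x)).comp x (hlin k x)).div_const k).congr_deriv ?_
      field_simp
    · exact Real.analyticAt_cos.comp (alin k x)
    · exact (Real.analyticAt_sin.comp (alin k x)).div analyticAt_const hk.ne'

theorem Fund.energy {μ : ℝ} {C S : ℝ → ℝ} (h : Fund μ C S) (x : ℝ) :
    C x ^ 2 + μ * S x ^ 2 = 1 := by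
  have hd : ∀ x, HasDerivAt (fun x => C x * C x + μ * (S x * S x)) 0 x := by
    intro x
    refine (((h.dC x).fun_mul (h.dC x)).fun_add
      (((h.dS x).fun_mul (h.dS x)).const_mul μ)).congr_deriv ?_
    ring
  have := is_const_of_deriv_eq_zero (fun x => (hd x).differentiableAt) (fun x => (hd x).deriv) x 0
  simp only [h.C0, h.S0] at this
  linarith

theorem Fund.sol {μ : ℝ} {C S : ℝ → ℝ} (h : Fund μ C S) {f g : ℝ → ℝ} {L : ℝ}
    (hf : ∀ x ∈ Icc 0 L, HasDerivWithinAt f (g x) (Icc 0 L) x)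
    (hg : ∀ x ∈ Icc 0 L, HasDerivWithinAt g (-(μ * f x)) (Icc 0 L) x) {x : ℝ} (hx : x ∈ Icc 0 L) :
    f x = f 0 * C x + g 0 * S x ∧ g x = -(μ * (f 0 * S x)) + g 0 * C x := by
  have hconst : ∀ (F : ℝ → ℝ), (∀ x ∈ Icc 0 L, HasDerivWithinAt F 0 (Icc 0 L) x) →
      ∀ x ∈ Icc 0 L, F x = F 0 := by
    intro F hF x hx
    refine constant_of_derivWithin_zero (fun y hy => (hF y hy).differentiableWithinAt) ?_ x hx
    intro y hy
    have hL : (0 : ℝ) < L := lt_of_le_of_lt hy.1 hy.2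
    exact (hF y ⟨hy.1, hy.2.le⟩).derivWithin (uniqueDiffOn_Icc hL y ⟨hy.1, hy.2.le⟩)
  have h1 := hconst (fun x => f x * C x - g x * S x) (by
    intro x hx
    refine (((hf x hx).fun_mul (h.dC x).hasDerivWithinAt).fun_sub
      ((hg x hx).fun_mul (h.dS x).hasDerivWithinAt)).congr_deriv ?_
    ring) x hx
  have h2 := hconst (fun x => μ * (f x * S x) + g x * C x) (by
    intro x hx
    refine ((((hf x hx).fun_mul (h.dS x).hasDerivWithinAt).const_mul μ).fun_add
      ((hg x hx).fun_mul (h.dC x).hasDerivWithinAt)).congr_deriv ?_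
    ring) x hx
  simp only [h.C0, h.S0, mul_zero, mul_one, sub_zero, zero_add] at h1 h2
  have he := h.energy x
  constructor
  · rw [← h1, ← h2]
    linear_combination (-(f x)) * he
  · rw [← h1, ← h2]
    linear_combination (-(g x)) * he

/-- an analytic function with infinitely many zeros in a compact interval is zero -/
theorem analytic_zero {φ : ℝ → ℝ} (hφ : AnalyticOnNhd ℝ φ univ) {L : ℝ} {T : Set ℝ}
    (hT : T.Infinite) (hTL : T ⊆ Icc 0 L) (h0 : ∀ x ∈ T, φ x = 0) (x : ℝ) : φ x = 0 := by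
  obtain ⟨z, -, hz⟩ := Set.Infinite.exists_accPt_of_subset_isCompact hT isCompact_Icc hTL
  have hfr : ∃ᶠ y in 𝓝[≠] z, φ y = 0 := (accPt_iff_frequently_nhdsNE.1 hz).mono h0
  exact hφ.eqOn_zero_of_preconnected_of_frequently_eq_zero isPreconnected_univ (mem_univ z) hfr
    (mem_univ x)

section graph

variable {V E : Type}

/-- the data of a function: values and derivatives at the beginnings of the edges, values at the
vertices -/
abbrev Dat (V E : Type) := (E → ℝ) × (E → ℝ) × (V → ℝ)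

/-- the function on the edge -/
def phi (C S : ℝ → ℝ) (w : Dat V E) (e : E) (x : ℝ) : ℝ := w.1 e * C x + w.2.1 e * S x

/-- its derivative -/
def dphi (μ : ℝ) (C S : ℝ → ℝ) (w : Dat V E) (e : E) (x : ℝ) : ℝ :=
  -(μ * (w.1 e * S x)) + w.2.1 e * C x

/-- the function on the graph -/
def toFn (C S : ℝ → ℝ) (w : Dat V E) : Fn V E := ⟨w.2.2, phi C S w⟩

/-- the value at a point -/
def evl (C S : ℝ → ℝ) (Γ : MGraph V E) (P : Γ.Point) : Dat V E →ₗ[ℝ] ℝ where
  toFun w := (toFn C S w).val P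
  map_add' w w' := by
    rcases P with v | p
    · rfl
    · show (w.1 + w'.1) p.1.1 * C p.1.2 + (w.2.1 + w'.2.1) p.1.1 * S p.1.2 =
        (w.1 p.1.1 * C p.1.2 + w.2.1 p.1.1 * S p.1.2) +
        (w'.1 p.1.1 * C p.1.2 + w'.2.1 p.1.1 * S p.1.2)
      simp only [Pi.add_apply]
      ring
  map_smul' c w := by
    rcases P with v | p
    · rfl
    · show (c • w.1) p.1.1 * C p.1.2 + (c • w.2.1) p.1.1 * S p.1.2 =
        c * (w.1 p.1.1 * C p.1.2 + w.2.1 p.1.1 * S p.1.2)
      simp only [Pi.smul_apply, smul_eq_mul]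
      ring

variable [Fintype V] [Fintype E] [DecidableEq V]

/-- the space of the data of the solutions -/
def Wsp (Γ : MGraph V E) (α : V → ℝ) (μ : ℝ) (C S : ℝ → ℝ) : Submodule ℝ (Dat V E) where
  carrier := {w | (∀ e, w.1 e = w.2.2 (Γ.src e)) ∧
    (∀ e, phi C S w e (Γ.len e) = w.2.2 (Γ.tgt e)) ∧
    ∀ v, (∑ e with Γ.src e = v, w.2.1 e) - (∑ e with Γ.tgt e = v, dphi μ C S w e (Γ.len e)) =
      α v * w.2.2 v}
  zero_mem' := by
    refine ⟨fun e => rfl, fun e => ?_, fun v => ?_⟩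
    · simp [phi]
    · simp [dphi]
  add_mem' := by
    rintro w w' ⟨h1, h2, h3⟩ ⟨h1', h2', h3'⟩
    refine ⟨fun e => ?_, fun e => ?_, fun v => ?_⟩
    · show w.1 e + w'.1 e = w.2.2 (Γ.src e) + w'.2.2 (Γ.src e)
      rw [h1, h1']
    · have a := h2 e
      have b := h2' e
      unfold phi at *
      show (w.1 e + w'.1 e) * C (Γ.len e) + (w.2.1 e + w'.2.1 e) * S (Γ.len e) =
        w.2.2 (Γ.tgt e) + w'.2.2 (Γ.tgt e)
      linarith
    · have a := h3 v
      have b := h3' v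
      have e1 : ∀ e, dphi μ C S (w + w') e (Γ.len e) =
          dphi μ C S w e (Γ.len e) + dphi μ C S w' e (Γ.len e) := by
        intro e
        show -(μ * ((w.1 e + w'.1 e) * S (Γ.len e))) + (w.2.1 e + w'.2.1 e) * C (Γ.len e) = _
        unfold dphi
        ring
      have e2 : ∀ e, (w + w').2.1 e = w.2.1 e + w'.2.1 e := fun e => rfl
      simp only [e1, e2, Finset.sum_add_distrib]
      show _ = α v * (w.2.2 v + w'.2.2 v)
      linarith
  smul_mem' := by
    rintro c w ⟨h1, h2, h3⟩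
    refine ⟨fun e => ?_, fun e => ?_, fun v => ?_⟩
    · show c * w.1 e = c * w.2.2 (Γ.src e)
      rw [h1]
    · have a := h2 e
      unfold phi at *
      show (c * w.1 e) * C (Γ.len e) + (c * w.2.1 e) * S (Γ.len e) = c * w.2.2 (Γ.tgt e)
      rw [← a]
      ring
    · have a := h3 v
      have e1 : ∀ e, dphi μ C S (c • w) e (Γ.len e) = c * dphi μ C S w e (Γ.len e) := by
        intro e
        show -(μ * ((c * w.1 e) * S (Γ.len e))) + (c * w.2.1 e) * C (Γ.len e) = _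
        unfold dphi
        ring
      have e2 : ∀ e, (c • w).2.1 e = c * w.2.1 e := fun e => rfl
      simp only [e1, e2, ← Finset.mul_sum]
      show _ = α v * (c * w.2.2 v)
      rw [← mul_sub, a]
      ring

variable {Γ : MGraph V E} {α : V → ℝ} {μ : ℝ} {C S : ℝ → ℝ}

theorem hasDeriv_phi (h : Fund μ C S) (w : Dat V E) (e : E) (x : ℝ) :
    HasDerivAt (phi C S w e) (dphi μ C S w e x) x := by
  unfold phi
  refine (((h.dC x).const_mul (w.1 e)).fun_add ((h.dS x).const_mul (w.2.1 e))).congr_deriv ?_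
  unfold dphi
  ring

theorem hasDeriv_dphi (h : Fund μ C S) (w : Dat V E) (e : E) (x : ℝ) :
    HasDerivAt (dphi μ C S w e) (-(μ * phi C S w e x)) x := by
  unfold dphi
  refine ((((h.dS x).const_mul (w.1 e)).const_mul μ).fun_neg.fun_add
    ((h.dC x).const_mul (w.2.1 e))).congr_deriv ?_
  unfold phi
  ring

theorem exists_ne (h : Fund μ C S) {w : Dat V E} (hw : w ∈ Wsp Γ α μ C S) (h0 : w ≠ 0) :
    ∃ P : Γ.Point, (toFn C S w).val P ≠ 0 := by
  by_contra hcon
  push Not at hcon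
  apply h0
  have hv : ∀ v, w.2.2 v = 0 := fun v => hcon (Sum.inl v)
  have ha : ∀ e, w.1 e = 0 := fun e => by rw [hw.1 e, hv]
  have hb : ∀ e, w.2.1 e = 0 := by
    intro e
    have hz : ∀ x, 0 < x → x < Γ.len e → phi C S w e x = 0 := fun x h1 h2 =>
      hcon (Sum.inr ⟨(e, x), h1, h2⟩)
    have hd := hasDeriv_phi h w e 0
    have hd0 : dphi μ C S w e 0 = w.2.1 e := by
      unfold dphi
      rw [h.S0, h.C0]; ring
    rw [hd0] at hd
    have h1 : HasDerivWithinAt (phi C S w e) (w.2.1 e) (Ici 0) 0 := hd.hasDerivWithinAt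
    have h2 : HasDerivWithinAt (phi C S w e) 0 (Ici 0) 0 := by
      refine (hasDerivWithinAt_const (0 : ℝ) (Ici 0) (0 : ℝ)).congr_of_eventuallyEq ?_ ?_
      · have : Iio (Γ.len e) ∈ 𝓝[Ici 0] (0 : ℝ) :=
          mem_nhdsWithin_of_mem_nhds (Iio_mem_nhds (Γ.len_pos e))
        filter_upwards [this, self_mem_nhdsWithin] with x hx hx0
        rcases eq_or_lt_of_le (show (0 : ℝ) ≤ x from hx0) with h3 | h3
        · rw [← h3]
          unfold phi
          rw [ha, h.S0]; ring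
        · exact hz x h3 hx
      · unfold phi
        rw [ha, h.S0]; ring
    exact (uniqueDiffWithinAt_Ici (0 : ℝ)).eq_deriv _ h1 h2
  refine Prod.ext (funext ha) (Prod.ext (funext hb) (funext hv))

theorem isEigen (h : Fund μ C S) {w : Dat V E} (hw : w ∈ Wsp Γ α μ C S) (h0 : w ≠ 0) :
    IsEigenfunction Γ α μ (toFn C S w) := by
  refine ⟨exists_ne h hw h0, dphi μ C S w, fun e => ?_, hw.2.1, fun e x _ =>
    (hasDeriv_phi h w e x).hasDerivWithinAt, fun e x _ => (hasDeriv_dphi h w e x).hasDerivWithinAt,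
    fun v => ?_⟩
  · show phi C S w e 0 = w.2.2 (Γ.src e)
    rw [← hw.1 e]
    unfold phi
    rw [h.C0, h.S0]; ring
  · have := hw.2.2 v
    have e1 : ∀ e, dphi μ C S w e 0 = w.2.1 e := by
      intro e
      unfold dphi
      rw [h.C0, h.S0]; ring
    simp only [e1]
    exact this

theorem exists_dat (h : Fund μ C S) {f : Fn V E} (hf : IsEigenfunction Γ α μ f) :
    ∃ w ∈ Wsp Γ α μ C S, w ≠ 0 ∧ ∀ P : Γ.Point, (toFn C S w).val P = f.val P := by
  obtain ⟨⟨P, hP⟩, g, h0, h1, hd, hg, hK⟩ := hf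
  have hs := fun e (x : ℝ) (hx : x ∈ Icc 0 (Γ.len e)) => h.sol (hd e) (hg e) hx
  have hL : ∀ e, Γ.len e ∈ Icc 0 (Γ.len e) := fun e => ⟨(Γ.len_pos e).le, le_rfl⟩
  have hval : ∀ P : Γ.Point, (toFn C S ((fun e => f.edge e 0, fun e => g e 0, f.vert) :
      Dat V E)).val P = f.val P := by
    intro P
    rcases P with v | ⟨⟨e, x⟩, hx⟩
    · rfl
    · exact ((hs e x ⟨hx.1.le, hx.2.le⟩).1).symm
  refine ⟨(fun e => f.edge e 0, fun e => g e 0, f.vert), ⟨h0, fun e => ?_, fun v => ?_⟩, ?_, hval⟩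
  · show f.edge e 0 * C (Γ.len e) + g e 0 * S (Γ.len e) = f.vert (Γ.tgt e)
    rw [← (hs e _ (hL e)).1, h1]
  · have e1 : ∀ e, dphi μ C S ((fun e => f.edge e 0, fun e => g e 0, f.vert) : Dat V E) e
        (Γ.len e) = g e (Γ.len e) := fun e => ((hs e _ (hL e)).2).symm
    simp only [e1]
    exact hK v
  · intro hz
    apply hP
    rw [← hval P, hz]
    rcases P with v | p
    · rfl
    · show (0 : ℝ) * C _ + 0 * S _ = 0
      ring

/-- the points of an edge -/
def Ied (Γ : MGraph V E) (e : E) : Set Γ.Point :=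
  {P | ∃ (x : ℝ) (hx : 0 < x ∧ x < Γ.len e), P = Sum.inr ⟨(e, x), hx⟩}

/-- the coordinate -/
def crd (Γ : MGraph V E) : Γ.Point → ℝ
  | Sum.inl _ => 0
  | Sum.inr p => p.1.2

omit [Fintype V] [Fintype E] [DecidableEq V] in
theorem crd_inj (e : E) : Set.InjOn (crd Γ) (Ied Γ e) := by
  rintro _ ⟨x, hx, rfl⟩ _ ⟨y, hy, rfl⟩ h
  have h' : x = y := h
  subst h'
  rfl

omit [Fintype V] [Fintype E] [DecidableEq V] in
theorem Ied_unc (e : E) : ¬ (Ied Γ e).Countable := by
  intro h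
  have h2 : (crd Γ '' Ied Γ e).Countable := h.image _
  have h3 : Ioo 0 (Γ.len e) ⊆ crd Γ '' Ied Γ e := fun x hx => ⟨Sum.inr ⟨(e, x), hx⟩, ⟨x, hx, rfl⟩, rfl⟩
  have h4 := Cardinal.Real.Ioo_countable_iff.1 (h2.mono h3)
  linarith [Γ.len_pos e]

omit [Fintype V] [Fintype E] [DecidableEq V] in
theorem inf_crd {e : E} {p : Γ.Point → Prop} (h : {P | P ∈ Ied Γ e ∧ p P}.Infinite) :
    {x : ℝ | ∃ hx : 0 < x ∧ x < Γ.len e, p (Sum.inr ⟨(e, x), hx⟩)}.Infinite := by
  have h2 : (crd Γ '' {P | P ∈ Ied Γ e ∧ p P}).Infinite :=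
    h.image ((crd_inj e).mono fun P hP => hP.1)
  refine h2.mono ?_
  rintro _ ⟨_, ⟨⟨x, hx, rfl⟩, hp⟩, rfl⟩
  exact ⟨hx, hp⟩

theorem exists_max (h : Fund μ C S) [Nonempty V] {w : Dat V E} (hw : w ∈ Wsp Γ α μ C S) :
    ∃ P : Γ.Point, ∀ Q : Γ.Point, (toFn C S w).val Q ≤ (toFn C S w).val P := by
  have hc : ∀ e, ContinuousOn (phi C S w e) (Icc 0 (Γ.len e)) := fun e x _ =>
    (hasDeriv_phi h w e x).continuousAt.continuousWithinAt
  have hm : ∀ e, ∃ x ∈ Icc 0 (Γ.len e), ∀ y ∈ Icc 0 (Γ.len e), phi C S w e y ≤ phi C S w e x := by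
    intro e
    obtain ⟨x, hx, hx2⟩ := isCompact_Icc.exists_isMaxOn
      (Set.nonempty_Icc.2 (Γ.len_pos e).le) (hc e)
    exact ⟨x, hx, fun y hy => hx2 hy⟩
  choose xm hxm hxm2 using hm
  -- points of the graph with these values
  have hpt : ∀ e, ∃ P : Γ.Point, (toFn C S w).val P = phi C S w e (xm e) := by
    intro e
    rcases eq_or_lt_of_le (hxm e).1 with h1 | h1
    · refine ⟨Sum.inl (Γ.src e), ?_⟩
      show w.2.2 (Γ.src e) = _
      rw [← h1, ← hw.1 e]
      unfold phi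
      rw [h.C0, h.S0]; ring
    · rcases eq_or_lt_of_le (hxm e).2 with h2 | h2
      · refine ⟨Sum.inl (Γ.tgt e), ?_⟩
        show w.2.2 (Γ.tgt e) = _
        rw [h2, hw.2.1 e]
      · exact ⟨Sum.inr ⟨(e, xm e), h1, h2⟩, rfl⟩
  choose pt hpt using hpt
  obtain ⟨j, hj⟩ := Finite.exists_max (fun j : V ⊕ E => (toFn C S w).val
    (Sum.elim (fun v => (Sum.inl v : Γ.Point)) pt j))
  refine ⟨Sum.elim (fun v => (Sum.inl v : Γ.Point)) pt j, fun Q => ?_⟩
  rcases Q with v | ⟨⟨e, x⟩, hx⟩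
  · exact hj (Sum.inl v)
  · refine le_trans ?_ (hj (Sum.inr e))
    show phi C S w e x ≤ (toFn C S w).val (pt e)
    rw [hpt]
    exact hxm2 e x ⟨hx.1.le, hx.2.le⟩

theorem crit_zero (h : Fund μ C S) {e : E} {x : ℝ} (hx : 0 < x ∧ x < Γ.len e)
    {w : Dat V E} (hw : ∀ Q : Γ.Point, (toFn C S w).val Q ≤
      (toFn C S w).val (Sum.inr ⟨(e, x), hx⟩ : Γ.Point)) : dphi μ C S w e x = 0 := by
  have hl : IsLocalMax (phi C S w e) x := by
    filter_upwards [Ioo_mem_nhds hx.1 hx.2] with y hy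
    exact hw (Sum.inr ⟨(e, y), hy⟩)
  exact hl.hasDerivAt_eq_zero (hasDeriv_phi h w e x)

theorem main (h : Fund μ C S) [Nonempty V]
    (hM : {P : Γ.Point | ∃ w : Wsp Γ α μ C S, w ≠ 0 ∧
      ∀ Q : Γ.Point, (toFn C S w.1).val Q ≤ (toFn C S w.1).val P}.Countable) :
    {P : Γ.Point | ∃ w : Wsp Γ α μ C S, w ≠ 0 ∧
      ∀ Q : Γ.Point, (toFn C S w.1).val Q ≤ (toFn C S w.1).val P}.Finite := by
  have : CompleteSpace (Wsp Γ α μ C S) := FiniteDimensional.complete ℝ _
  refine core (W := Wsp Γ α μ C S) (ι := E)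
    (fun P => LinearMap.toContinuousLinearMap ((evl C S Γ P).comp (Wsp Γ α μ C S).subtype))
    (Ied Γ) (Set.range Sum.inl) (Set.finite_range _) ?_ ?_ (fun e => Ied_unc e) ?_ ?_ hM
  · rintro (v | ⟨⟨e, x⟩, hx⟩)
    · exact Or.inl ⟨v, rfl⟩
    · exact Or.inr ⟨e, x, hx, rfl⟩
  · intro w
    exact exists_max h w.2
  · intro e w c hinf
    have h1 : {x : ℝ | ∃ hx : 0 < x ∧ x < Γ.len e,
        (toFn C S w.1).val (Sum.inr ⟨(e, x), hx⟩ : Γ.Point) = c}.Infinite := inf_crd hinf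
    have han : AnalyticOnNhd ℝ (fun x => phi C S w.1 e x - c) univ := fun x _ =>
      ((analyticAt_const.mul (h.aC x trivial)).add
        (analyticAt_const.mul (h.aS x trivial))).sub analyticAt_const
    have h2 := analytic_zero han (L := Γ.len e) h1 (fun x hx => by
      obtain ⟨hx, -⟩ := hx
      exact ⟨hx.1.le, hx.2.le⟩) (fun x hx => by
      obtain ⟨hx, h3⟩ := hx
      have h4 : phi C S w.1 e x = c := h3
      show phi C S w.1 e x - c = 0
      rw [h4, sub_self])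
    rintro _ ⟨x, hx, rfl⟩
    show phi C S w.1 e x = c
    have := h2 x
    linarith
  · intro e hinf w
    have h1 := inf_crd hinf
    have han : AnalyticOnNhd ℝ (fun x => dphi μ C S w.1 e x) univ := fun x _ =>
      ((analyticAt_const.mul (analyticAt_const.mul (h.aS x trivial))).neg).add
        (analyticAt_const.mul (h.aC x trivial))
    have h2 := analytic_zero han (L := Γ.len e) h1 (fun x hx => by
      obtain ⟨hx, -⟩ := hx
      exact ⟨hx.1.le, hx.2.le⟩) (fun x hx => by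
      obtain ⟨hx, w0, h3⟩ := hx
      have h0 : dphi μ C S w0.1 e x = 0 := crit_zero h hx (interior_subset h3)
      have hcont : Tendsto (fun ε : ℝ => w0 + ε • w) (𝓝[>] 0) (𝓝 w0) := by
        have : Tendsto (fun ε : ℝ => w0 + ε • w) (𝓝 0) (𝓝 (w0 + (0 : ℝ) • w)) :=
          tendsto_const_nhds.add (tendsto_id.smul_const w)
        rw [zero_smul, add_zero] at this
        exact this.mono_left nhdsWithin_le_nhds
      have hev := hcont.eventually (isOpen_interior.mem_nhds h3)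
      obtain ⟨ε, hε, hε0⟩ := (hev.and self_mem_nhdsWithin).exists
      have hε0 : 0 < ε := hε0
      have h4 : dphi μ C S (w0 + ε • w).1 e x = 0 := crit_zero h hx (interior_subset hε)
      have h5 : dphi μ C S (w0 + ε • w).1 e x =
          dphi μ C S w0.1 e x + ε * dphi μ C S w.1 e x := by
        show -(μ * ((w0.1.1 e + ε * w.1.1 e) * S x)) + (w0.1.2.1 e + ε * w.1.2.1 e) * C x = _
        unfold dphi
        ring
      rw [h5, h0, zero_add] at h4
      exact (mul_eq_zero.1 h4).resolve_left hε0.ne')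
    have h6 : ∀ x y, phi C S w.1 e x = phi C S w.1 e y := by
      intro x y
      refine is_const_of_deriv_eq_zero (fun x => (hasDeriv_phi h w.1 e x).differentiableAt)
        (fun x => ?_) x y
      rw [(hasDeriv_phi h w.1 e x).deriv]
      exact h2 x
    rintro _ ⟨x, hx, rfl⟩ _ ⟨y, hy, rfl⟩
    exact h6 x y

theorem hotSet_finite_or_uncountable (Γ : MGraph V E) (α : V → ℝ) :
    (hotSet Γ α).Finite ∨ ¬ (hotSet Γ α).Countable := by
  by_cases hμ : ∃ μ, IsSecondEigenvalue Γ α μ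
  swap
  · left
    have : hotSet Γ α = ∅ := by
      refine Set.eq_empty_of_forall_notMem fun P hP => ?_
      obtain ⟨μ, f, h1, -⟩ := hP
      exact hμ ⟨μ, h1⟩
    rw [this]
    exact Set.finite_empty
  obtain ⟨μ, hμ⟩ := hμ
  obtain ⟨C, S, h⟩ := exists_fund μ
  rcases isEmpty_or_nonempty V with hV | hV
  · left
    have : IsEmpty E := ⟨fun e => hV.false (Γ.src e)⟩
    have : IsEmpty Γ.Point := ⟨fun P => by
      rcases P with v | ⟨⟨e, x⟩, hx⟩
      · exact hV.false v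
      · exact IsEmpty.false e⟩
    exact Set.toFinite _
  have heq : hotSet Γ α = {P : Γ.Point | ∃ w : Wsp Γ α μ C S, w ≠ 0 ∧
      ∀ Q : Γ.Point, (toFn C S w.1).val Q ≤ (toFn C S w.1).val P} := by
    ext P
    constructor
    · rintro ⟨μ', f, h1, h2, h3⟩
      have hμμ : μ' = μ := by
        obtain ⟨l, hl, hl2⟩ := h1
        obtain ⟨l', hl', hl2'⟩ := hμ
        have : l = l' := hl.unique hl'
        subst this
        exact hl2.unique hl2'
      subst hμμ
      obtain ⟨w, hw, hw0, hval⟩ := exists_dat h h2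
      rcases h3 with h3 | h3
      · refine ⟨⟨w, hw⟩, fun h0 => hw0 (congrArg Subtype.val h0), fun Q => ?_⟩
        show (toFn C S w).val Q ≤ (toFn C S w).val P
        rw [hval, hval]
        exact h3 Q
      · refine ⟨⟨-w, (Wsp Γ α μ' C S).neg_mem hw⟩, fun h0 => hw0 (neg_eq_zero.1
          (congrArg Subtype.val h0)), fun Q => ?_⟩
        have hn : ∀ R : Γ.Point, (toFn C S (-w)).val R = -f.val R := by
          intro R
          rw [← hval R]
          exact map_neg (evl C S Γ R) w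
        show (toFn C S (-w)).val Q ≤ (toFn C S (-w)).val P
        rw [hn, hn]
        exact neg_le_neg (h3 Q)
    · rintro ⟨w, hw0, hw⟩
      exact ⟨μ, toFn C S w.1, hμ, isEigen h w.2 (fun h0 => hw0 (Subtype.ext h0)), Or.inl hw⟩
  rw [heq]
  by_cases hc : {P : Γ.Point | ∃ w : Wsp Γ α μ C S, w ≠ 0 ∧
      ∀ Q : Γ.Point, (toFn C S w.1).val Q ≤ (toFn C S w.1).val P}.Countable
  · exact Or.inl (main h hc)
  · exact Or.inr hc

end graph

end Run7.h115.QG
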